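import Pool.Agent.H.MP_5bbf46_al.E

namespace Pool.Agent.Results.MP_5bbf46_al.Free

open Pool.Agent.H.MP_5bbf46_al

/-- The non-trivial quasivarieties of groups with a non-trivial law form a free semigroup. -/
theorem result : ∃ (ι : Type 1) (e : FreeSemigroup ι → Cls), Function.Injective e ∧
    Set.range e = {X | IsQuasivariety X ∧ HasLaw X ∧ X ≠ triv} ∧
    ∀ a b, e (a * b) = mul (e a) (e b) := H.MP_5bbf46_al.main

end Pool.Agent.Results.MP_5bbf46_al.Free
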